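import Pool.Agent.W973.SRR.Defs

/-!
# The list of pairs of an involution (project SRR, step PRS)
-/

set_option autoImplicit false

namespace Pool.Agent.W675.SRR

open Pool.Agent.W973.SRR Pool.Agent.NPC

theorem mem_prs (n : ℕ) (f : ℕ → ℕ) (a b : ℕ) :
    (a, b) ∈ prs n f ↔ a < n ∧ a < f a ∧ b = f a := by
  unfold prs
  simp only [List.mem_map, List.mem_filter, List.mem_range, decide_eq_true_eq, Prod.mk.injEq]
  constructor
  · rintro ⟨c, ⟨h1, h2⟩, h3, h4⟩
    subst h3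
    exact ⟨h1, h2, h4.symm⟩
  · rintro ⟨h1, h2, h3⟩
    exact ⟨a, ⟨h1, h2⟩, rfl, h3.symm⟩

theorem prsT : S_PRS := by
  intro n f hf
  have key : ∀ a b, Matched (prs n f) a b ↔ a < n ∧ b = f a := by
    intro a b
    unfold Matched
    rw [mem_prs, mem_prs]
    constructor
    · rintro (⟨h1, h2, h3⟩ | ⟨h1, h2, h3⟩)
      · exact ⟨h1, h3⟩
      · subst h3
        exact ⟨hf.lt b h1, (hf.inv b h1).symm⟩
    · rintro ⟨h1, h2⟩
      subst h2
      rcases lt_trichotomy a (f a) with h | h | h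
      · left; exact ⟨h1, h, rfl⟩
      · exact absurd h.symm (hf.ne a h1)
      · right
        exact ⟨hf.lt a h1, by rw [hf.inv a h1]; exact h, (hf.inv a h1).symm⟩
  refine ⟨⟨?_, ?_⟩, key⟩
  · rintro ⟨a, b⟩ hp
    rw [mem_prs] at hp
    obtain ⟨h1, h2, h3⟩ := hp
    subst h3
    exact ⟨h1, hf.lt a h1, h2.ne⟩
  · intro a b c hb hc
    rw [key] at hb hc
    rw [hb.2, hc.2]

end Pool.Agent.W675.SRR
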